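import Mathlib

set_option autoImplicit false

namespace Pool.Agent.Results.MP_625351_al.BoxSpaces

open LaurentPolynomial Filter

/-- The ring `A = ℤ[X, X⁻¹]`; Mathlib writes `T n` for `X ^ n`. -/
abbrev A := LaurentPolynomial ℤ

/-- The invertible matrix with rows `(X ^ n, P)` and `(0, 1)`. -/
noncomputable def mat (P : A) (n : ℤ) : GL (Fin 2) A :=
  ⟨!![T n, P; 0, 1], !![T (-n), -(T (-n) * P); 0, 1],
    by simp [← T_add, ← mul_assoc, Matrix.one_fin_two, -T_mul],
    by simp [← T_add, Matrix.one_fin_two, -T_mul]⟩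

lemma mat_mul (P Q : A) (n m : ℤ) : mat P n * mat Q m = mat (T n * Q + P) (n + m) :=
  Units.ext (by simp [mat, T_add, -T_mul])

lemma mat_inv (P : A) (n : ℤ) : (mat P n)⁻¹ = mat (-(T (-n) * P)) (-n) := Units.ext rfl

/-- The group `ℤ ≀ ℤ` as a subgroup of `GL₂(A)`. -/
def G : Subgroup (GL (Fin 2) A) where
  carrier := {x | ∃ P n, x = mat P n}
  one_mem' := ⟨0, 0, Units.ext (by simp [mat, Matrix.one_fin_two])⟩
  mul_mem' := by
    rintro _ _ ⟨P, n, rfl⟩ ⟨Q, m, rfl⟩
    exact ⟨_, _, mat_mul ..⟩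
  inv_mem' := by
    rintro _ ⟨P, n, rfl⟩
    exact ⟨_, _, mat_inv ..⟩

/-- The congruence subgroup `G(I) = G ∩ ker (GL₂(A) → GL₂(A/I))`. -/
noncomputable abbrev cong (I : Ideal A) : Subgroup G :=
  ((Matrix.GeneralLinearGroup.map (Ideal.Quotient.mk I)).comp G.subtype).ker

/-- Decreasing finite-index ideals whose congruence subgroups form a filtration of `G`. -/
def IsCongFiltration (I : ℕ → Ideal A) : Prop :=
  Antitone I ∧ (∀ k, Finite (A ⧸ I k)) ∧ (∀ k, (cong (I k)).FiniteIndex) ∧ ⨅ k, cong (I k) = ⊥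

/-- `q` is a product of at most `n` elements of `S ∪ S⁻¹`. -/
def Len {Q : Type} [Group Q] (S : Set Q) (q : Q) (n : ℕ) : Prop :=
  ∃ l : List Q, l.length ≤ n ∧ (∀ x ∈ l, x ∈ S ∨ x⁻¹ ∈ S) ∧ l.prod = q

/-- The diameter of the Cayley graph of a finite group generated by `S`. -/
noncomputable def diam {Q : Type} [Group Q] (S : Set Q) : ℕ := sInf {n | ∀ q, Len S q n}

/-- Property `D_α` of the congruence box space of `I`, for the generating set `S`. -/
def HasD (S : Set G) (I : ℕ → Ideal A) (α : ℝ) : Prop :=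
  ∃ K : ℝ, 0 < K ∧ ∀ k, K * (Nat.card (G ⧸ cong (I k)) : ℝ) ^ α ≤
    diam ((QuotientGroup.mk : G → G ⧸ cong (I k)) '' S)

noncomputable def g (P : A) (n : ℤ) : G := ⟨mat P n, P, n, rfl⟩

lemma g_mul (P Q : A) (n m : ℤ) : g P n * g Q m = g (T n * Q + P) (n + m) :=
  Subtype.ext (mat_mul ..)

lemma g_surj (x : G) : ∃ P n, x = g P n := by
  obtain ⟨_, P, n, rfl⟩ := x
  exact ⟨P, n, rfl⟩

lemma g_zero : g 0 0 = 1 := Subtype.ext (Units.ext (by simp [g, mat, Matrix.one_fin_two]))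

lemma eqv (I : Ideal A) (P Q : A) (n m : ℤ) :
    (g P n : G ⧸ cong I) = g Q m ↔ T n - T m ∈ I ∧ P - Q ∈ I := by
  rw [QuotientGroup.eq, MonoidHom.mem_ker, map_mul, map_inv, inv_mul_eq_one,
    Matrix.GeneralLinearGroup.ext_iff]
  simp [Fin.forall_fin_two, g, mat, Ideal.Quotient.eq, Matrix.GeneralLinearGroup.map_apply]

lemma per {I : Ideal A} {n : ℤ} (h : T n - 1 ∈ I) (j : ℤ) : T j - T (j % n) ∈ I := by
  have h1 (q : ℤ) : Ideal.Quotient.mk I (T (n * q)) = 1 := by
    have h2 : Ideal.Quotient.mk I (T n) = 1 := Ideal.Quotient.eq.mpr h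
    induction q with
    | zero => simp
    | succ i hi => rw [mul_add, mul_one, T_add, map_mul, hi, h2, one_mul]
    | pred i hi =>
      rw [← hi, show n * (-i : ℤ) = n * (-i - 1) + n by ring, T_add, map_mul, h2, mul_one]
  rw [← Ideal.Quotient.eq]
  conv_lhs => rw [← Int.emod_add_mul_ediv j n, T_add, map_mul, h1, mul_one]

lemma inf_bot (I : ℕ → Ideal A) (h : ∀ P, (∀ k, P ∈ I k) → P = 0) : ⨅ k, cong (I k) = ⊥ := by
  refine bot_unique fun x hx => ?_
  obtain ⟨P, n, rfl⟩ := g_surj x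
  have h1 (k : ℕ) := (eqv (I k) P 0 n 0).mp (by
    rw [g_zero]; exact (QuotientGroup.eq_one_iff _).mpr (Subgroup.mem_iInf.mp hx k))
  have h2 := sub_eq_zero.mp (h _ fun k => (h1 k).1)
  have h3 := sub_eq_zero.mp (h _ fun k => (h1 k).2)
  rw [Subgroup.mem_bot, ← g_zero]
  exact Subtype.ext (Units.ext (by simp [g, mat, h2, h3]))

lemma surj {I : Ideal A} {N : ℕ} (hN : 0 < N) (h : T N - 1 ∈ I) :
    ∃ f : (A ⧸ I) × Fin N → G ⧸ cong I, f.Surjective := by
  refine ⟨fun x => g x.1.out (x.2 : ℕ), fun q => ?_⟩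
  obtain ⟨x, rfl⟩ := QuotientGroup.mk_surjective q
  obtain ⟨P, n, rfl⟩ := g_surj x
  have h1 := Int.emod_nonneg n (b := N) (by omega)
  have h2 := Int.emod_lt_of_pos n (b := N) (by omega)
  refine ⟨(Ideal.Quotient.mk I P, ⟨(n % N).toNat, by omega⟩), ((eqv ..).mpr ⟨?_, ?_⟩).symm⟩
  · simpa [Int.toNat_of_nonneg h1] using per h n
  exact Ideal.Quotient.eq.mp (Ideal.Quotient.mk_out _).symm

section
variable {Q : Type} [Group Q] {S : Set Q}

lemma Len.mono {q : Q} {n m : ℕ} (h : Len S q n) (e : n ≤ m) : Len S q m :=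
  h.imp fun _ h => ⟨h.1.trans e, h.2⟩

lemma Len.mul {q r : Q} {n m : ℕ} : Len S q n → Len S r m → Len S (q * r) (n + m)
  | ⟨l, h1, h2, h3⟩, ⟨l', h4, h5, h6⟩ => ⟨l ++ l', by simp; omega,
    fun x hx => (List.mem_append.mp hx).elim (h2 x) (h5 x), by rw [List.prod_append, h3, h6]⟩

lemma Len.pow {q : Q} {n : ℕ} (h : Len S q n) : ∀ c : ℕ, Len S (q ^ c) (c * n)
  | 0 => ⟨[], by simp, by simp, by simp⟩
  | c + 1 => by rw [pow_succ, add_mul, one_mul]; exact (h.pow c).mul h

lemma Len.ex (hS : Subgroup.closure S = ⊤) (q : Q) : ∃ n, Len S q n := by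
  obtain ⟨l, h1, h2⟩ := Submonoid.exists_list_of_mem_closure (s := S ∪ S⁻¹) (x := q)
    (by rw [← Subgroup.closure_toSubmonoid, hS]; trivial)
  exact ⟨_, l, le_rfl, h1, h2⟩

lemma Len.map {R : Type} [Group R] (f : Q →* R) {q : Q} {n : ℕ} :
    Len S q n → Len (f '' S) (f q) n
  | ⟨l, h1, h2, h3⟩ => ⟨l.map f, by simpa, fun x hx => by
    obtain ⟨y, hy, rfl⟩ := List.mem_map.mp hx
    exact (h2 y hy).imp (fun h => ⟨y, h, rfl⟩) fun h => ⟨y⁻¹, h, map_inv f y⟩,
    by rw [← map_list_prod, h3]⟩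

lemma Len.diam [Finite Q] (h : ∀ q, ∃ n, Len S q n) (q : Q) : Len S q (diam S) := by
  choose n hn using h
  obtain ⟨b, hb⟩ := (Set.finite_range n).bddAbove
  exact Nat.sInf_mem (s := {n | ∀ q, Len S q n}) ⟨b, fun q => (hn q).mono (hb ⟨q, rfl⟩)⟩ q

end

lemma trans_ex : ∃ y : ℤ_[3], Transcendental ℤ (4 + 9 * y) := by
  have h1 : {y : ℚ_[3] | IsAlgebraic ℤ (4 + 9 * y)}.Countable :=
    (Algebraic.countable ℤ ℚ_[3]).preimage_of_injOn (f := fun y => 4 + 9 * y)
      fun a _ b _ h => by simpa using h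
  obtain ⟨y, h2, h3⟩ := (h1.dense_compl ℚ_[3]).inter_open_nonempty _ Metric.isOpen_ball
    ⟨0, Metric.mem_ball_self one_pos⟩
  refine ⟨⟨y, (mem_ball_zero_iff.mp h2).le⟩, fun h => h3 ?_⟩
  have h4 := h.algebraMap (A := ℚ_[3])
  rw [map_add, map_mul, map_ofNat, map_ofNat] at h4
  exact h4

lemma part1 (S : Set G) (hf : S.Finite) (hS : Subgroup.closure S = ⊤) :
    ∃ I, IsCongFiltration I ∧ HasD S I (1 / 2) := by
  obtain ⟨y, hy⟩ := trans_ex
  have hu : IsUnit (4 + 9 * y) := by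
    convert IsLocalRing.isUnit_one_sub_self_of_mem_nonunits ((3 : ℕ) * (-1 - 3 * y))
      (mul_mem_nonunits_left PadicInt.p_nonunit) using 1
    push_cast
    ring
  let φ : A →+* ℤ_[3] := eval₂ (Int.castRingHom _) hu.unit
  let ψ (k : ℕ) := (PadicInt.toZModPow (k + 1 + 1)).comp φ
  have h1 (k n : ℕ) : T n - 1 ∈ RingHom.ker (ψ k) ↔ 3 ^ (k + 1) ∣ n := by
    obtain ⟨b, hb⟩ := ZMod.intCast_surjective (PadicInt.toZModPow (k + 1 + 1) y)
    rw [RingHom.sub_mem_ker_iff, map_one, ← ZMod.orderOf_one_add_mul_prime Nat.prime_three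
      (by decide) (1 + 3 * b) (by omega) (k + 1), orderOf_dvd_iff_pow_eq_one]
    simp only [ψ, φ, RingHom.comp_apply, eval₂_T_n, map_pow, IsUnit.unit_spec, map_add, map_mul,
      map_ofNat, ← hb]
    push_cast
    ring_nf
  have h2 (k : ℕ) := (RingHom.kerLift_injective (ψ k))
  have h3 (k : ℕ) : Finite (A ⧸ RingHom.ker (ψ k)) := .of_injective _ (h2 k)
  choose f hf' using fun k => surj (by positivity) ((h1 k _).mpr dvd_rfl)
  have h4 (k : ℕ) : Finite (G ⧸ cong (RingHom.ker (ψ k))) := .of_surjective _ (hf' k)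
  refine ⟨fun k => RingHom.ker (ψ k), ⟨fun i j e P hP => ?_, h3,
    fun k => Subgroup.finiteIndex_of_finite_quotient, inf_bot _ fun P hP => ?_⟩, ?_⟩
  · simp only [ψ, ← RingHom.comap_ker, PadicInt.ker_toZModPow, Ideal.mem_comap,
      Ideal.mem_span_singleton] at hP ⊢
    exact (pow_dvd_pow _ (by omega)).trans hP
  · have h5 : φ P = 0 := PadicInt.ext_of_toZModPow.mp fun k => by
      have := hP k
      simp only [ψ, ← RingHom.comap_ker, PadicInt.ker_toZModPow, Ideal.mem_comap,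
        Ideal.mem_span_singleton] at this
      rw [map_zero, ← RingHom.mem_ker, PadicInt.ker_toZModPow, Ideal.mem_span_singleton]
      exact (pow_dvd_pow _ (by omega)).trans this
    obtain ⟨n, p, hp⟩ := P.exists_T_pow
    have h6 := congrArg φ hp
    rw [map_mul, h5, zero_mul, eval₂_toLaurent] at h6
    have h7 : p = 0 := by
      by_contra h
      exact hy ⟨p, h, h6⟩
    rw [h7, map_zero] at hp
    exact ((isUnit_T n).mul_left_eq_zero).mp hp.symm
  choose P n hn using g_surj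
  obtain ⟨M, hM⟩ := (hf.image fun x => (n x).natAbs).bddAbove
  refine ⟨1 / (6 * (M + 1)), by positivity, fun k => ?_⟩
  have h5 (l : List (G ⧸ cong (RingHom.ker (ψ k)))) (h : ∀ x ∈ l, x ∈ QuotientGroup.mk '' S ∨
      x⁻¹ ∈ QuotientGroup.mk '' S) : ∃ R j, l.prod = g R j ∧ j.natAbs ≤ M * l.length := by
    induction l with
    | nil => exact ⟨0, 0, by rw [g_zero]; rfl, by simp⟩
    | cons x l ih =>
      obtain ⟨R, j, e, hj⟩ := ih fun z hz => h z (List.mem_cons_of_mem _ hz)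
      have : ∃ R' j', x = g R' j' ∧ j'.natAbs ≤ M := by
        rcases h x List.mem_cons_self with ⟨s, hs, e⟩ | ⟨s, hs, e⟩
        · exact ⟨_, _, by rw [← e, ← hn], hM ⟨s, hs, rfl⟩⟩
        refine ⟨-(T (-n s) * P s), -n s, ?_, by simpa using hM ⟨s, hs, rfl⟩⟩
        rw [← inv_inv x, ← e, ← QuotientGroup.mk_inv]
        congr 1
        conv_lhs => rw [hn s]
        exact Subtype.ext (mat_inv ..)
      obtain ⟨R', j', rfl, hj'⟩ := this
      refine ⟨_, _, by rw [List.prod_cons, e, ← QuotientGroup.mk_mul, g_mul], ?_⟩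
      rw [List.length_cons, mul_add]
      omega
  obtain ⟨l, h6, h7, h8⟩ := Len.diam (S := QuotientGroup.mk '' S) (fun q => by
    obtain ⟨x, rfl⟩ := QuotientGroup.mk_surjective q
    exact (Len.ex hS x).imp fun _ h => h.map (QuotientGroup.mk' _))
      (g 0 (3 ^ k : ℕ) : G ⧸ cong (RingHom.ker (ψ k)))
  obtain ⟨R, j, e, hj⟩ := h5 l h7
  have h9 : 3 ^ k ≤ j.natAbs := by
    by_contra! hc
    have a1 := Ideal.mul_mem_left _ (T (-j)) ((eqv ..).mp (h8.symm.trans e)).1
    rw [mul_sub, ← T_add, ← T_add, neg_add_cancel, T_zero,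
      ← Int.toNat_of_nonneg (a := -j + _) (by omega), h1] at a1
    have a2 := Nat.le_of_dvd (by omega) a1
    omega
  have a1 : Nat.card (G ⧸ cong (RingHom.ker (ψ k))) ≤ (6 * 3 ^ k) ^ 2 := by
    refine (Nat.card_le_card_of_surjective _ (hf' k)).trans ?_
    have := Nat.card_le_card_of_injective _ (h2 k)
    rw [Nat.card_zmod] at this
    rw [Nat.card_prod, Nat.card_fin]
    refine (Nat.mul_le_mul_right _ this).trans ?_
    calc _ = 27 * (3 ^ k) ^ 2 := by ring
      _ ≤ 36 * (3 ^ k) ^ 2 := by omega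
      _ = _ := by ring
  have a2 : 3 ^ k ≤ (M + 1) * diam ((QuotientGroup.mk : G → G ⧸ cong (RingHom.ker (ψ k))) '' S) :=
    h9.trans (hj.trans (Nat.mul_le_mul (by omega) h6))
  rw [← Real.sqrt_eq_rpow, one_div, inv_mul_le_iff₀ (by positivity), Real.sqrt_le_left
    (by positivity)]
  have a3 := a1.trans (Nat.pow_le_pow_left (Nat.mul_le_mul_left 6 a2) 2)
  rw [← mul_assoc] at a3
  exact_mod_cast a3

/-- The ideal `(N, X ^ N - 1)`. -/
noncomputable def J (N : ℕ) : Ideal A := Ideal.span {(N : A), T N - 1}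

noncomputable def sm (c : ℕ → ℤ) (r : ℕ) : A := ∑ i ∈ Finset.range r, C (c i) * T i

lemma J_T (N : ℕ) : T N - 1 ∈ J N := Ideal.subset_span (by simp)

lemma J_N (N : ℕ) : (N : A) ∈ J N := Ideal.subset_span (by simp)

lemma key {N r : ℕ} (hr : r ≤ N) {c : ℕ → ℤ} (h : sm c r ∈ J N) {j : ℕ} (hj : j < r) :
    (N : ℤ) ∣ c j := by
  let u : (AddMonoidAlgebra (ZMod N) (ZMod N))ˣ := ⟨.single 1 1, .single (-1) 1,
    by simp [AddMonoidAlgebra.single_mul_single, AddMonoidAlgebra.one_def],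
    by simp [AddMonoidAlgebra.single_mul_single, AddMonoidAlgebra.one_def]⟩
  let φ : A →+* _ := eval₂ (Int.castRingHom _) u
  have h1 (i : ℕ) : φ (T i) = .single i 1 := by
    simp [φ, u, AddMonoidAlgebra.single_pow]
  have h2 : J N ≤ RingHom.ker φ := Ideal.span_le.mpr <| by
    rintro _ (rfl | rfl)
    · rw [SetLike.mem_coe, RingHom.mem_ker, map_natCast, AddMonoidAlgebra.natCast_def,
        ZMod.natCast_self, AddMonoidAlgebra.single_zero]
    rw [SetLike.mem_coe, RingHom.mem_ker, map_sub, h1, map_one, ZMod.natCast_self,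
      AddMonoidAlgebra.one_def, sub_self]
  have h0 (a : ℤ) : φ (C a) = .single 0 a := (eval₂_C ..).trans (AddMonoidAlgebra.intCast_def a)
  have h3 := congrArg (fun x => x.coeff j) (RingHom.mem_ker.mp (h2 h))
  simp only [sm, map_sum, map_mul, h1, h0, AddMonoidAlgebra.single_mul_single,
    AddMonoidAlgebra.coeff_sum, Finset.sum_apply', AddMonoidAlgebra.coeff_single, zero_add,
    mul_one] at h3
  rw [Finset.sum_eq_single j (fun i hi e => Finsupp.single_eq_of_ne fun h => e ?_) (by simp [hj]),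
    Finsupp.single_eq_same] at h3
  · exact (ZMod.intCast_zmod_eq_zero_iff_dvd _ _).mp h3
  rw [ZMod.natCast_eq_natCast_iff', Nat.mod_eq_of_lt (by omega),
    Nat.mod_eq_of_lt (by have := Finset.mem_range.mp hi; omega)] at h
  exact h.symm

lemma red {N : ℕ} (hN : 0 < N) (P : A) :
    ∃ c : ℕ → ℕ, (∀ i, c i < N) ∧ P - sm (fun i => c i) N ∈ J N := by
  have h1 : ∃ c, P - sm c N ∈ J N := by
    induction P using LaurentPolynomial.induction_on' with
    | add p q hp hq =>
      obtain ⟨c, hc⟩ := hp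
      obtain ⟨d, hd⟩ := hq
      refine ⟨c + d, ?_⟩
      convert add_mem hc hd using 1
      simp only [sm, Pi.add_apply, map_add, add_mul, Finset.sum_add_distrib]
      ring
    | C_mul_T n a =>
      have h1 := Int.emod_nonneg n (b := N) (by omega)
      have h2 := Int.emod_lt_of_pos n (b := N) (by omega)
      refine ⟨Pi.single (n % N).toNat a, ?_⟩
      rw [sm, Finset.sum_eq_single (n % N).toNat (fun i _ e => by simp [Pi.single_eq_of_ne e])
        (fun h => (h (Finset.mem_range.mpr (by omega))).elim), Pi.single_eq_same,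
        Int.toNat_of_nonneg h1, ← mul_sub]
      exact Ideal.mul_mem_left _ _ (per (J_T N) n)
  obtain ⟨c, hc⟩ := h1
  have h1 (i : ℕ) := Int.emod_nonneg (c i) (b := N) (by omega)
  refine ⟨fun i => (c i % N).toNat, fun i => ?_, ?_⟩
  · have := Int.emod_lt_of_pos (c i) (b := N) (by omega)
    have := h1 i
    beta_reduce
    omega
  convert add_mem hc (Ideal.mul_mem_right (sm (fun i => c i / N) N) _ (J_N N)) using 1
  simp only [sm, Int.toNat_of_nonneg (h1 _), Finset.mul_sum, sub_add, ← Finset.sum_sub_distrib]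
  congr 1
  refine Finset.sum_congr rfl fun i _ => ?_
  rw [Int.emod_def, map_sub, map_mul, map_natCast]
  ring

lemma g_pow (c : ℕ) : g 1 0 ^ c = g c 0 := by
  induction c with
  | zero => simp [g_zero]
  | succ c h => rw [pow_succ, h, g_mul]; simp [add_comm]

lemma g_pow' (c : ℕ) : g 0 1 ^ c = g 0 c := by
  induction c with
  | zero => simp [g_zero]
  | succ c h => rw [pow_succ, h, g_mul]; simp

lemma part2 (S : Set G) (hS : Subgroup.closure S = ⊤) :
    ∃ I, IsCongFiltration I ∧ ∀ α, 0 < α → ¬ HasD S I α := by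
  have h1 (N : ℕ) (hN : 0 < N) : Finite (A ⧸ J N) := by
    refine .of_surjective (fun c : Fin N → Fin N =>
      Ideal.Quotient.mk (J N) (sm (fun i => (c ⟨i % N, Nat.mod_lt _ hN⟩ : ℕ)) N)) fun x => ?_
    obtain ⟨P, rfl⟩ := Ideal.Quotient.mk_surjective x
    obtain ⟨c, h1, h2⟩ := red hN P
    refine ⟨fun i => ⟨c i, h1 i⟩, Eq.trans ?_ (Ideal.Quotient.eq.mpr h2).symm⟩
    refine congrArg (Ideal.Quotient.mk (J N)) (Finset.sum_congr rfl fun i hi => ?_)
    simp only [Nat.mod_eq_of_lt (Finset.mem_range.mp hi)]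
  have h2 (N : ℕ) (hN : 0 < N) : Finite (G ⧸ cong (J N)) := by
    obtain ⟨f, hf⟩ := surj hN (J_T N)
    have := h1 N hN
    exact .of_surjective f hf
  refine ⟨fun k => J (2 ^ (k + 1)), ⟨antitone_nat_of_succ_le fun k => Ideal.span_le.mpr ?_,
    fun k => h1 _ (by positivity), fun k => ?_, inf_bot _ fun P hP => ?_⟩, ?_⟩
  · rintro _ (rfl | rfl)
    · rw [pow_succ _ (k + 1), Nat.cast_mul]
      exact Ideal.mul_mem_right _ _ (J_N _)
    simpa [pow_succ _ (k + 1)] using per (J_T (2 ^ (k + 1))) (2 ^ (k + 1 + 1) : ℕ)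
  · have := h2 (2 ^ (k + 1)) (by positivity)
    exact Subgroup.finiteIndex_of_finite_quotient
  · obtain ⟨n, p, hp⟩ := P.exists_T_pow
    have h3 : Polynomial.toLaurent p = sm p.coeff (p.natDegree + 1) := by
      conv_lhs => rw [p.as_sum_range, map_sum]
      simp [sm]
    have h7 : p = 0 := Polynomial.ext fun j => by
      by_cases hj : j < p.natDegree + 1
      · have := (p.natDegree + (p.coeff j).natAbs + 1).lt_two_pow_self
        exact Int.eq_zero_of_dvd_of_natAbs_lt_natAbs (key (by omega)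
          (h3 ▸ hp ▸ Ideal.mul_mem_right _ _ (hP (p.natDegree + (p.coeff j).natAbs))) hj)
          (by rw [Int.natAbs_natCast]; omega)
      exact Polynomial.coeff_eq_zero_of_natDegree_lt (by omega)
    rw [h7, map_zero] at hp
    exact ((isUnit_T n).mul_left_eq_zero).mp hp.symm
  rintro α hα ⟨K, hK, h⟩
  obtain ⟨a, ha⟩ := Len.ex hS (g 1 0)
  obtain ⟨b, hb⟩ := Len.ex hS (g 0 1)
  have h3 (N : ℕ) (hN : 0 < N) :
      diam ((QuotientGroup.mk : G → G ⧸ cong (J N)) '' S) ≤ (a + 2 * b) * N ^ 2 := by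
    refine Nat.sInf_le fun q => ?_
    obtain ⟨x, rfl⟩ := QuotientGroup.mk_surjective q
    obtain ⟨P, n, rfl⟩ := g_surj x
    obtain ⟨c, h4, h5⟩ := red hN P
    have h6 (r : ℕ) : Len S (g (sm (fun i => c i) r) r) (r * (N * a + b)) := by
      induction r with
      | zero => simpa [sm, g_zero] using ha.pow 0
      | succ r ih =>
        have := (ih.mul (ha.pow (c r))).mul hb
        rw [g_pow, g_mul, g_mul] at this
        convert this.mono (m := (r + 1) * (N * a + b)) (by nlinarith [h4 r]) using 2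
        · simp [sm, Finset.sum_range_succ, add_comm]
        simp
    have h7 := Int.emod_nonneg n (b := N) (by omega)
    have h8 := Int.emod_lt_of_pos n (b := N) (by omega)
    have h9 := ((h6 N).mul (hb.pow (n % N).toNat)).map (QuotientGroup.mk' (cong (J N)))
    rw [g_pow', g_mul, Int.toNat_of_nonneg h7] at h9
    have e : (g P n : G ⧸ cong (J N)) = g (T N * 0 + sm (fun i => c i) N) (N + n % N) := by
      refine (eqv ..).mpr ⟨?_, by simpa using h5⟩
      convert sub_mem (per (J_T N) n) (per (J_T N) (N + n % N)) using 1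
      simp
    rw [e]
    refine h9.mono ?_
    have : (n % N).toNat ≤ N * N := by nlinarith [show (n % N).toNat ≤ N by omega]
    have : N * b ≤ N * N * b := by gcongr; nlinarith
    nlinarith
  have h4 (N : ℕ) (hN : 2 ≤ N) : 2 ^ N ≤ Nat.card (G ⧸ cong (J N)) := by
    have := h2 N (by omega)
    have h0 : 0 < N := by omega
    convert Nat.card_le_card_of_injective (fun c : Fin N → Fin 2 => (g (sm (fun i =>
      (c ⟨i % N, Nat.mod_lt _ h0⟩ : ℕ)) N) 0 : G ⧸ cong (J N))) fun c d e => ?_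
    · simp
    have e1 := ((eqv ..).mp e).2
    funext j
    have e2 := key (c := fun i => (c ⟨i % N, Nat.mod_lt _ h0⟩ : ℕ) - (d ⟨i % N, Nat.mod_lt _ h0⟩ : ℕ))
      le_rfl (by simpa [sm, sub_mul] using e1) j.2
    simp only [Nat.mod_eq_of_lt j.2, Fin.eta] at e2
    have e3 := Int.eq_zero_of_dvd_of_natAbs_lt_natAbs e2 (by omega)
    omega
  have h5 := (tendsto_pow_const_div_const_pow_of_one_lt 2 (Real.one_lt_rpow one_lt_two hα)).comp
    ((tendsto_pow_atTop_atTop_of_one_lt one_lt_two).comp (tendsto_add_atTop_nat 1))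
  obtain ⟨k, hk⟩ := (h5.eventually (gt_mem_nhds (show 0 < K / (a + 2 * b + 1) by positivity))).exists
  have h6 : K * (Nat.card (G ⧸ cong (J (2 ^ (k + 1)))) : ℝ) ^ α ≤
    diam ((QuotientGroup.mk : G → G ⧸ cong (J (2 ^ (k + 1)))) '' S) := h k
  have h7 := h3 (2 ^ (k + 1)) (by positivity)
  have h8 := h4 (2 ^ (k + 1)) (Nat.le_self_pow (by omega) 2)
  simp only [Function.comp] at hk
  generalize 2 ^ (k + 1) = N at *
  rw [div_lt_div_iff₀ (by positivity) (by positivity), ← Real.rpow_mul_natCast (by norm_num),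
    mul_comm α, Real.rpow_natCast_mul (by norm_num)] at hk
  have h9 : ((2 : ℝ) ^ N) ^ α ≤ (Nat.card (G ⧸ cong (J N)) : ℝ) ^ α := by
    gcongr
    exact_mod_cast h8
  have h10 : (diam ((QuotientGroup.mk : G → G ⧸ cong (J N)) '' S) : ℝ) ≤ (a + 2 * b) * N ^ 2 := by
    exact_mod_cast h7
  nlinarith [mul_le_mul_of_nonneg_left h9 hK.le]

/-- For every finite generating set of `ℤ ≀ ℤ`, some congruence box space has `D_{1/2}` and some
congruence box space has `D_α` for no `α > 0`. -/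
theorem result (S : Set G) (hf : S.Finite) (hS : Subgroup.closure S = ⊤) :
    (∃ I, IsCongFiltration I ∧ HasD S I (1 / 2)) ∧
      ∃ I, IsCongFiltration I ∧ ∀ α, 0 < α → ¬ HasD S I α :=
  ⟨part1 S hf hS, part2 S hS⟩

end Pool.Agent.Results.MP_625351_al.BoxSpaces
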